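import Pool.Agent.N688.RO.Vecs

/-!
# Prime tuples of the right order of magnitude for almost all vectors of short shifts in a Bohr set

Let `k, s` and `ε > 0` be given. There are `D, d` and `ρ, δ > 0`, and for every `lam > 0` there is a `κ > 0` with the
following property. For every `C`, all large `N`, all `q ≥ 1` and at EVERY scale `lam log N ≤ H`,
`q H ≤ (log N)^C` there is a Bohr set `B ⊆ [-H, H]` of rank at most `d` and radius at least `ρ`, with at least `δ H`
elements, such that for all but `ε |B|^k` of the vectors `y ∈ B^k` and for ALL nonsingular integral matrices `T` with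
entries at most `s`: the integers `0, (T y)_1, …, (T y)_k` are distinct and the pattern

  `0, D q (T y)_1, …, D q (T y)_k`  (translated so that its least element is `0`)

has a positive singular series `S` and at least `κ S N / (log N)^(k+1)` realisations by primes up to `N`: the number
predicted by Hardy and Littlewood, up to the constant `κ`.

Method. (1) In one residue class modulo the product of the primes up to `log log N` few configurations of `4 m`
families of shifts fail to have `m` families with good transversals (`Pool.Agent.Y877.RO.fail_small`, starting files: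
coloured Maynard-Tao theorem of Banks-Freiberg-Maynard with a second moment). (2) `Pool.Agent.N688.RO.rare`: from the
classes to all integers, for tuples of `4 m` shifts (after `Pool.Agent.Y877.RO.rightOrder`). (3)
`Pool.Agent.N688.RO.wcl4`: if only FEW tuples fail there is a set of positive density almost all of whose
`(k+1)`-tuples are good (containers, after `Pool.Agent.N646.AC.wclique`, helper646, where NO configuration may fail).
(4) From almost complete dense sets to Bohr sets: `Pool.Agent.N646.AC.returnsZ` (helper646).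
-/

set_option autoImplicit false

open Filter Finset

namespace Pool.Agent.Results.MP_485179_nt.RightOrderInBohrSets

open Classical in
/-- The Bohr set of the integers `|b| ≤ H` with `|exp (2 π i θ b) - 1| ≤ τ` for all `θ ∈ Θ`. -/
noncomputable def bohrSet (Θ : Finset ℝ) (τ : ℝ) (H : ℕ) : Finset ℤ :=
  (Icc (-(H : ℤ)) H).filter (fun b => ∀ θ ∈ Θ,
    ‖Complex.exp (2 * Real.pi * Complex.I * θ * b) - 1‖ ≤ τ)

/-- the number of `1 ≤ n ≤ N` for which all `n + t`, `t ∈ P`, are prime -/
def count (N : ℕ) (P : Finset ℕ) : ℕ := ((Icc 1 N).filter (fun n => ∀ t ∈ P, (n + t).Prime)).card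

/-- the number of residue classes modulo `p` occupied by `P` -/
def nu (P : Finset ℕ) (p : ℕ) : ℕ := (P.image (· % p)).card

/-- the factor at `p` of the singular series of `P` -/
noncomputable def loc (P : Finset ℕ) (p : ℕ) : ℝ :=
  (1 - (nu P p : ℝ) / p) / (1 - 1 / (p : ℝ)) ^ P.card

/-- `P` is a set of `k + 1` shifts, its singular series converges to some `S > 0`, and at least
`κ S N / (log N) ^ (k + 1)` integers `n ≤ N` have all `n + t`, `t ∈ P`, prime -/
def RightOrder (κ : ℝ) (k N : ℕ) (P : Finset ℕ) : Prop :=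
  P.card = k + 1 ∧ ∃ S : ℝ, 0 < S ∧ HasProd (fun p : Nat.Primes => loc P p) S ∧
    κ * S * (N / Real.log N ^ (k + 1)) ≤ count N P

/-- The pattern `{0, D h_1, …, D h_k}`, translated so that its least element is `0`. -/
noncomputable def pattern {k : ℕ} (D : ℕ) (h : Fin k → ℤ) : Finset ℕ :=
  univ.image (fun i : Fin (k + 1) => D * ((Fin.cons 0 h : Fin (k + 1) → ℤ) i -
    univ.inf' univ_nonempty (Fin.cons 0 h : Fin (k + 1) → ℤ)).toNat)

theorem pattern_eq {k : ℕ} (D : ℕ) (h : Fin k → ℤ) :
    pattern D h = Pool.Agent.N688.RO.pat D (univ.image (Pool.Agent.N646.AC.nv h)) := by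
  have e : Pool.Agent.N688.RO.mn (univ.image (Pool.Agent.N646.AC.nv h)) =
      univ.inf' univ_nonempty (Fin.cons 0 h : Fin (k + 1) → ℤ) := by
    apply le_antisymm
    · apply le_inf'
      intro i _
      exact Pool.Agent.N688.RO.mn_le (mem_image_of_mem _ (mem_univ i))
    · obtain ⟨i, _, hi⟩ := mem_image.1 (Pool.Agent.N688.RO.mn_mem
        ((univ_nonempty (α := Fin (k + 1))).image (Pool.Agent.N646.AC.nv h)))
      rw [← hi]
      exact inf'_le _ (mem_univ i)
  unfold pattern Pool.Agent.N688.RO.pat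
  rw [image_image, e]
  rfl

open Pool.Agent.H387R2.Uni in
theorem right_order {κ : ℝ} {D k N : ℕ} {U : Finset ℤ} (hD : 1 ≤ D)
    (hdvd : ∀ p : ℕ, p.Prime → p ≤ k + 1 → p ∣ D) (hU : U.card = k + 1)
    (h : Pool.Agent.N688.RO.GoodZ κ D k N U) : RightOrder κ k N (Pool.Agent.N688.RO.pat D U) := by
  have hc : (Pool.Agent.N688.RO.pat D U).card = k + 1 := by
    rw [Pool.Agent.N688.RO.pat_card hD, hU]
  refine ⟨hc, CT (Pool.Agent.N688.RO.pat D U), ?_, CT_hasProd _, h⟩
  rw [← CT_en]
  apply Pool.Agent.H386R2.HL.singularSeries_pos (en_inj _)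
  intro p hp
  rw [nu_en]
  unfold nuT
  by_cases hpk : p ≤ k + 1
  · have h1 : (Pool.Agent.N688.RO.pat D U).image (· % p) ⊆ {0} := by
      intro r hr
      obtain ⟨t, ht, rfl⟩ := mem_image.1 hr
      rw [mem_singleton]
      unfold Pool.Agent.N688.RO.pat at ht
      obtain ⟨z, _, rfl⟩ := mem_image.1 ht
      exact Nat.mod_eq_zero_of_dvd ((hdvd p hp hpk).mul_right _)
    have h2 := card_le_card h1
    rw [card_singleton] at h2
    exact lt_of_le_of_lt h2 hp.one_lt
  · exact lt_of_le_of_lt (card_image_le.trans hc.le) (not_le.1 hpk)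

open Classical in
/-- **Prime tuples of the right order of magnitude in Bohr sets of short shifts.** -/
theorem result (k s : ℕ) (ε : ℝ) (hε : 0 < ε) :
    ∃ (D d : ℕ) (ρ δ : ℝ), 1 ≤ D ∧ 0 < ρ ∧ 0 < δ ∧
    ∀ lam : ℝ, 0 < lam → ∃ κ : ℝ, 0 < κ ∧ ∀ C : ℝ, ∀ᶠ N : ℕ in atTop, ∀ q : ℕ, 1 ≤ q → ∀ H : ℕ,
      lam * Real.log N ≤ H → (q : ℝ) * H ≤ Real.log N ^ C →
      ∃ (Θ : Finset ℝ) (τ : ℝ), Θ.card ≤ d ∧ ρ ≤ τ ∧ τ ≤ 1 ∧ δ * H ≤ (bohrSet Θ τ H).card ∧
      (((Fintype.piFinset (fun _ : Fin k => bohrSet Θ τ H)).filter (fun y =>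
        ¬ ∀ T : Matrix (Fin k) (Fin k) ℤ, (∀ i j, |T i j| ≤ s) → T.det ≠ 0 →
          Function.Injective (Fin.cons 0 (T.mulVec y) : Fin (k + 1) → ℤ) ∧
          RightOrder κ k N (pattern (D * q) (T.mulVec y)))).card : ℝ) ≤
        ε * ((bohrSet Θ τ H).card : ℝ) ^ k := by
  obtain ⟨P0, d, ρ, δ, hP0, hdvd, hρ, hδ, hmain⟩ := Pool.Agent.N688.RO.ro_vectors k s ε hε
  refine ⟨P0, d, ρ, δ, hP0, hρ, hδ, fun lam hlam => ?_⟩
  obtain ⟨κ, hκ, hκC⟩ := hmain lam hlam
  refine ⟨κ, hκ, fun C => ?_⟩
  filter_upwards [hκC C] with N hN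
  intro q hq H hH hu
  obtain ⟨Θ, τ, h1, h2, h3, h4, h5⟩ := hN q hq H hH hu
  refine ⟨Θ, τ, h1, h2, h3, h4, le_trans ?_ h5⟩
  rw [Nat.cast_le]
  apply card_le_card
  intro y hy
  rw [mem_filter] at hy ⊢
  refine ⟨hy.1, fun hall => hy.2 fun T hT hdet => ?_⟩
  obtain ⟨g1, g2⟩ := hall T (Pool.Agent.N646.AC.mem_Mats.2 hT) hdet
  refine ⟨g1, ?_⟩
  rw [pattern_eq]
  exact right_order (Nat.mul_pos hP0 hq) (fun p hp hpk => (hdvd p hp hpk).mul_right q)
    (by rw [card_image_of_injective _ g1, card_univ, Fintype.card_fin]) g2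

end Pool.Agent.Results.MP_485179_nt.RightOrderInBohrSets
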