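import Mathlib
import Pool.Agent.N893.SM.Tup
import Pool.Agent.N740.HK.Lim

/-!
# The uniform Hardy–Littlewood asymptotic in all sieved sequential random models of the primes

The integers are decided one after the other; the multiples of the primes of a finite set `Q` are
never chosen and the conditional probability of choosing an integer `n + 1` which is not such a
multiple, given the decisions up to `n`, is asymptotic to `∏_{p ∈ Q} (1 - 1 / p)⁻¹ / log n`, almost
surely.  No independence and no rate of convergence are assumed.  In every such model the question has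
the answer yes, almost surely, for all lengths, and with shifts up to `x` instead of a power of
`log x`; with the main term in the form of a sum, with shifts up to any power of `x`.

The general law for the tuples (`Pool/Agent/R528/RM/Tup.lean`, `TupQ.lean`, one Azuma inequality for
every set of shifts and every element of it) is by helper528, the theorem on Hawkins' sieve
(`Pool/Agent/N740/HK`) by helper740.
-/

set_option autoImplicit false

open MeasureTheory Filter Set
open scoped Topology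

namespace Pool.Agent.Results.MP_485179_nt.SievedModels

variable {Ω : Type}

/-- `A n` is the event that `n` is chosen; adapted to `ℱ`; multiples of the primes in `Q` are not
chosen; the conditional probability of `A (n + 1)` given `ℱ n`, times `log n`, tends almost surely to
`∏_{p ∈ Q} (1 - 1 / p)⁻¹` along the `n` such that no `p ∈ Q` divides `n + 1` -/
def SievedModel [m : MeasurableSpace Ω] (μ : Measure Ω) (ℱ : Filtration ℕ m) (A : ℕ → Set Ω)
    (Q : Finset ℕ) : Prop :=
  (∀ n, MeasurableSet[ℱ n] (A n)) ∧ (∀ n, (∃ p ∈ Q, p ∣ n) → A n = ∅) ∧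
  ∀ᵐ ω ∂μ, Tendsto (fun n : ℕ => (μ[(A (n + 1)).indicator (fun _ => (1 : ℝ)) | ℱ n]) ω * Real.log n)
    (atTop ⊓ 𝓟 {n : ℕ | ∀ p ∈ Q, ¬ p ∣ n + 1}) (𝓝 (∏ p ∈ Q, (1 - 1 / (p : ℝ))⁻¹))

open Classical in
/-- The random sieve of Hawkins: `2` is chosen, and given the decisions up to `n ≥ 2` the number
`n + 1` is chosen with probability `∏ (1 - 1 / h)`, the product over the chosen `2 ≤ h ≤ n`. -/
def HawkinsSieve [m : MeasurableSpace Ω] (μ : Measure Ω) (ℱ : Filtration ℕ m) (A : ℕ → Set Ω) : Prop :=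
  (∀ n, MeasurableSet[ℱ n] (A n)) ∧ A 2 = univ ∧
  ∀ n, 2 ≤ n → μ[(A (n + 1)).indicator (fun _ => (1 : ℝ)) | ℱ n] =ᵐ[μ]
    fun ω => ∏ h ∈ Finset.Icc 2 n, if ω ∈ A h then 1 - 1 / (h : ℝ) else 1

/-- the number of `1 ≤ m ≤ x` such that all `m + d`, `d ∈ D`, are chosen -/
noncomputable def tuples (A : ℕ → Set Ω) (ω : Ω) (D : Finset ℕ) (x : ℕ) : ℕ :=
  {m : ℕ | 1 ≤ m ∧ m ≤ x ∧ ∀ d ∈ D, ω ∈ A (m + d)}.ncard

/-- the factors of the singular series at the primes of `Q` -/
noncomputable def sing (Q D : Finset ℕ) : ℝ :=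
  ∏ p ∈ Q, (1 - ((D.image (· % p)).card : ℝ) / p) * ((1 - 1 / (p : ℝ)) ^ D.card)⁻¹

open Classical in
/-- the asymptotic probability of `m` -/
noncomputable def prob (Q : Finset ℕ) (m : ℕ) : ℝ :=
  if ∀ p ∈ Q, ¬ p ∣ m then min 1 ((∏ p ∈ Q, (1 - 1 / (p : ℝ))⁻¹) / Real.log m) else 0

/-- the expected number of tuples -/
noncomputable def expected (Q D : Finset ℕ) (x : ℕ) : ℝ := ∑ m ∈ Finset.Icc 1 x, ∏ d ∈ D, prob Q (m + d)

open Pool.Agent.R528.RM Pool.Agent.N893.SM

lemma tuples_eq (A : ℕ → Set Ω) (ρ : ℕ → ℝ) (ω : Ω) (D : Finset ℕ) (x : ℕ) :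
    (tuples A ω D x : ℝ) = TN A ρ x D ∅ ω := by
  classical
  unfold tuples TN
  simp only [Finset.prod_empty, mul_one]
  have h1 : ∀ n, (∏ h ∈ D, In A (n + 1 + h) ω) = if (∀ d ∈ D, ω ∈ A (n + 1 + d)) then (1 : ℝ) else 0 := by
    intro n
    by_cases h : ∀ d ∈ D, ω ∈ A (n + 1 + d)
    · rw [if_pos h]
      refine Finset.prod_eq_one fun d hd => ?_
      unfold In
      exact indicator_of_mem (h d hd) _
    · rw [if_neg h]
      push Not at h
      obtain ⟨d, hd, hn⟩ := h
      refine Finset.prod_eq_zero hd ?_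
      unfold In
      exact indicator_of_notMem hn _
  simp_rw [h1]
  rw [Finset.sum_boole]
  congr 1
  have e : {m : ℕ | 1 ≤ m ∧ m ≤ x ∧ ∀ d ∈ D, ω ∈ A (m + d)} =
      (((Finset.range x).filter fun n => ∀ d ∈ D, ω ∈ A (n + 1 + d)).image (fun n => n + 1) : Finset ℕ) := by
    ext m
    simp only [mem_ofPred_eq, Finset.coe_image, Finset.coe_filter, Finset.mem_range, mem_image]
    constructor
    · rintro ⟨h1, h2, h3⟩
      refine ⟨m - 1, ⟨by omega, ?_⟩, by omega⟩
      rw [show m - 1 + 1 = m by omega]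
      exact h3
    · rintro ⟨r, ⟨h1, h2⟩, rfl⟩
      exact ⟨by omega, by omega, h2⟩
  rw [e, ncard_coe_finset, Finset.card_image_of_injective _ (fun a b h => by simpa using h)]

lemma sing_eq (Q D : Finset ℕ) : sing Q D = singH Q D := rfl

lemma prob_eq (Q : Finset ℕ) (hQ : ∀ p ∈ Q, p.Prime) (m : ℕ) : prob Q m = rhoW (∏ p ∈ Q, p) m := by
  unfold prob rhoW
  rw [totient_prod Q hQ]
  simp_rw [coprime_prod_iff Q hQ m]

lemma expected_eq (A : ℕ → Set Ω) (Q : Finset ℕ) (hQ : ∀ p ∈ Q, p.Prime) (D : Finset ℕ) (x : ℕ) (ω : Ω) :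
    expected Q D x = TN A (rhoW (∏ p ∈ Q, p)) x ∅ D ω := by
  unfold expected TN
  simp only [Finset.prod_empty, one_mul]
  rw [Finset.range_eq_Ico, Finset.sum_Ico_add' (fun m => ∏ h ∈ D, rhoW (∏ p ∈ Q, p) (m + h)) 0 x 1]
  refine Finset.sum_congr ?_ fun m _ => Finset.prod_congr rfl fun h _ => prob_eq Q hQ _
  ext m
  simp only [Finset.mem_Icc, Finset.mem_Ico]
  omega

lemma tuples_zero {A : ℕ → Set Ω} {Q D : Finset ℕ} (hQ : ∀ p ∈ Q, p.Prime)
    (hcop : ∀ n, (∃ p ∈ Q, p ∣ n) → A n = ∅) (h : singH Q D = 0) (ω : Ω) (x : ℕ) : tuples A ω D x = 0 := by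
  obtain ⟨p, hp, ho⟩ := singH_zero hQ h
  unfold tuples
  have : {m : ℕ | 1 ≤ m ∧ m ≤ x ∧ ∀ d ∈ D, ω ∈ A (m + d)} = ∅ := by
    ext m
    simp only [mem_ofPred_eq, mem_empty_iff_false, iff_false, not_and]
    intro _ _ h3
    obtain ⟨a, ha, hd⟩ := occ_full (hQ p hp).pos ho m
    have := h3 a ha
    rw [hcop (m + a) ⟨p, hp, hd⟩] at this
    exact this
  rw [this, ncard_empty]

lemma expected_zero {Q D : Finset ℕ} (hQ : ∀ p ∈ Q, p.Prime) (h : singH Q D = 0) (x : ℕ) : expected Q D x = 0 := by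
  obtain ⟨p, hp, ho⟩ := singH_zero hQ h
  unfold expected
  refine Finset.sum_eq_zero fun m _ => ?_
  obtain ⟨a, ha, hd⟩ := occ_full (hQ p hp).pos ho m
  refine Finset.prod_eq_zero ha ?_
  unfold prob
  rw [if_neg]
  intro h1
  exact h1 p hp hd

end Pool.Agent.Results.MP_485179_nt.SievedModels

open Pool.Agent.Results.MP_485179_nt.SievedModels

/-- Hawkins' sieve is a sieved model with `Q = ∅`; and in every sieved model, almost surely: for every
`k ≥ 1` and every `ε > 0`, (1) for all large `x` and ALL `k`-element sets `D` of integers in `[0, x]` the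
number of `m ≤ x` for which all `m + d`, `d ∈ D`, are chosen differs from `𝔖_Q(D) x / (log x) ^ k` by at
most `ε 𝔖_Q(D) x / (log x) ^ k` (so it is zero if `𝔖_Q(D) = 0`); (2) for every `C`, for all large `x` and
all `k`-element sets `D` of integers in `[0, x ^ C]` it differs from the sum over `m ≤ x` of the products of
the asymptotic probabilities of the `m + d` by at most `ε` times this sum. -/
theorem Pool.Agent.Results.MP_485179_nt.SievedModels.result
    {Ω : Type} [m : MeasurableSpace Ω] (μ : Measure Ω) [IsProbabilityMeasure μ]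
    (ℱ : Filtration ℕ m) (A : ℕ → Set Ω) :
    (HawkinsSieve μ ℱ A → SievedModel μ ℱ A ∅) ∧
    (∀ Q : Finset ℕ, (∀ p ∈ Q, p.Prime) → SievedModel μ ℱ A Q → ∀ᵐ ω ∂μ, ∀ k : ℕ, ∀ ε : ℝ, 0 < ε →
      (∀ᶠ x : ℕ in atTop, ∀ D : Finset ℕ, (∀ d ∈ D, d ≤ x) → D.card = k →
        |(tuples A ω D x : ℝ) - sing Q D * (x / Real.log x ^ k)| ≤ ε * (sing Q D * (x / Real.log x ^ k))) ∧
      (∀ C : ℕ, ∀ᶠ x : ℕ in atTop, ∀ D : Finset ℕ, (∀ d ∈ D, d ≤ x ^ C) → D.card = k →
        |(tuples A ω D x : ℝ) - expected Q D x| ≤ ε * expected Q D x)) := by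
  classical
  constructor
  · rintro ⟨h1, h2, h3⟩
    have hs : Pool.Agent.N740.HK.HS μ ℱ A := ⟨h1, h2, fun n hn => by
      filter_upwards [h3 n hn] with ω hω
      have e : (∏ h ∈ Finset.Icc 2 n, if ω ∈ A h then 1 - 1 / (h : ℝ) else 1) =
          (Pool.Agent.N740.HK.Y A n ω)⁻¹ := by
        unfold Pool.Agent.N740.HK.Y
        rw [← Finset.prod_inv_distrib]
        refine Finset.prod_congr rfl fun h hh => ?_
        have h2 : (2 : ℝ) ≤ h := by exact_mod_cast (Finset.mem_Icc.1 hh).1
        by_cases hA : ω ∈ A h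
        · rw [if_pos hA, if_pos hA, inv_div]
          field_simp
        · rw [if_neg hA, if_neg hA, inv_one]
      rw [← e]
      exact hω⟩
    refine ⟨h1, fun n hn => ?_, ?_⟩
    · obtain ⟨p, hp, _⟩ := hn
      exact absurd hp (Finset.notMem_empty p)
    · filter_upwards [Pool.Agent.N740.HK.hawk_dens hs] with ω hω
      rw [Finset.prod_empty]
      exact hω.mono_left inf_le_left
  · rintro Q hQ ⟨hA, hcop, hd⟩
    set W := ∏ p ∈ Q, p with hW
    have hWp : 0 < W := Finset.prod_pos fun q hq => (hQ q hq).pos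
    have hWr : (0 : ℝ) < W := by exact_mod_cast hWp
    filter_upwards [Pool.Agent.R528.RM.tup_sieved (μ := μ) hA Q hQ hcop hd,
      Pool.Agent.N893.SM.tup_ratio (μ := μ) hA Q hQ hcop hd] with ω hω1 hω2 k ε hε
    constructor
    · filter_upwards [hω1 k (ε / W) (by positivity), eventually_ge_atTop 3] with x h1 h2 D hD hk
      have hx' : (3 : ℝ) ≤ x := by exact_mod_cast h2
      have hL : 0 < Real.log (x : ℝ) := Real.log_pos (by linarith)
      rw [sing_eq]
      by_cases hs : Pool.Agent.R528.RM.singH Q D = 0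
      · rw [hs, tuples_zero hQ hcop hs]
        simp
      · have h3 := h1 D (fun d hd => Finset.mem_range.2 (Nat.lt_succ_of_le (hD d hd))) hk
        have h4 := Pool.Agent.N893.SM.singH_low hQ hs
        rw [← hW] at h4 h3
        rw [← tuples_eq] at h3
        have h5 : 0 < (x : ℝ) / Real.log x ^ k := by positivity
        have h6 : (tuples A ω D x : ℝ) - Pool.Agent.R528.RM.singH Q D * (x / Real.log x ^ k) =
            ((tuples A ω D x : ℝ) * Real.log x ^ k / x - Pool.Agent.R528.RM.singH Q D) * (x / Real.log x ^ k) := by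
          field_simp
        rw [h6, abs_mul, abs_of_pos h5, ← mul_assoc]
        refine mul_le_mul_of_nonneg_right (h3.trans ?_) h5.le
        calc ε / W = ε * (1 / W) := by ring
          _ ≤ ε * Pool.Agent.R528.RM.singH Q D := mul_le_mul_of_nonneg_left h4 hε.le
    · intro C
      filter_upwards [hω2 C k ε hε] with x h1 D hD hk
      by_cases hs : Pool.Agent.R528.RM.singH Q D = 0
      · rw [tuples_zero hQ hcop hs, expected_zero hQ hs]
        simp
      · have h3 := h1 D (fun d hd => Finset.mem_range.2 (Nat.lt_succ_of_le (hD d hd))) hk hs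
        rw [← tuples_eq, ← expected_eq A Q hQ] at h3
        exact h3
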