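import Pool.Agent.N699.ST.Tra
import Pool.Agent.N699.RP.Prim

/-!
# The Hardy–Littlewood formula for constants with a small Fourier transform, and for explicit sets of polylogarithmic size

For almost all vectors `(a_1, ..., a_s)` of independent random constants the formula of Hardy and Littlewood holds for the
number of the `q ≤ N / j` for which `q` and all the numbers `d_i q + a_i` are primes, for all slopes `d_i ≤ j ≤ log ^ A N`
at the same time, for EVERY law of the constants whose Fourier transform is at most `1 / log ^ W N` off the major arcs.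
Such laws are carried by sets with only `log ^ C N` elements: by the short intervals of length `Q` at the rational points
`(u / b) M` with prime denominators `b ≤ Q`, `Q = log ^ C N`, translated by an arbitrary integer.

Method: the mean square of the correlation of `Λ - λ_z` with an ARBITRARY bounded function over the random shift is at
most `log ^ (-W) N` times the square of the `L¹` norm of the product of the Fourier transforms, plus the contribution of
the frequencies which differ by a major arc frequency (bounded by the theorem of Siegel and Walfisz and Vinogradov's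
estimate, from the starting files); then the constants are replaced one after the other.
-/

set_option autoImplicit false

namespace Pool.Agent.Results.MP_485179_nt.SmallSpectrum

open Finset

/-- For every prime `p` there is an `r` such that `p` divides neither `r` nor any `d i * r + a i`. -/
def Admissible {s : ℕ} (d a : Fin s → ℕ) : Prop := ∀ p : ℕ, p.Prime → ∃ r : ℕ, ¬ p ∣ r ∧ ∀ i, ¬ p ∣ d i * r + a i

/-- The number of the residues `r < p` for which `p` divides `r * ∏ i, (d i * r + a i)`. -/
def nu {s : ℕ} (d a : Fin s → ℕ) (p : ℕ) : ℕ := ((range p).filter fun r => p ∣ r * ∏ i, (d i * r + a i)).card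

/-- The partial product over the primes `p ≤ z` of the singular series. -/
noncomputable def sing {s : ℕ} (d a : Fin s → ℕ) (z : ℕ) : ℝ :=
  ∏ p ∈ (Icc 1 z).filter Nat.Prime, (1 - (nu d a p : ℝ) / p) / (1 - 1 / (p : ℝ)) ^ (s + 1)

/-- The number of the primes `q ≤ x` for which all `d i * q + a i` are primes. -/
def count {s : ℕ} (d a : Fin s → ℕ) (x : ℕ) : ℕ := ((Icc 1 x).filter fun q => q.Prime ∧ ∀ i, (d i * q + a i).Prime).card

/-- The formula of Hardy and Littlewood for the primes `q ≤ x` with all `d i * q + a i` prime, where `log N` is the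
approximate size of the logarithms of the primes: the singular series converges to some `S > 0`, the number of the
solutions weighted with the von Mangoldt function is `S x`, with an error of at most `x / log ^ U N`, and the number of
the solutions is `S x / log ^ (s + 1) N`, with a relative error of at most `ε`. -/
def Formula {s : ℕ} (ε : ℝ) (U N x : ℕ) (d a : Fin s → ℕ) : Prop :=
  ∃ S : ℝ, 0 < S ∧ Filter.Tendsto (sing d a) Filter.atTop (nhds S) ∧
    |∑ n ∈ Icc 1 x, ArithmeticFunction.vonMangoldt n * ∏ i, ArithmeticFunction.vonMangoldt (d i * n + a i) - S * x| ≤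
      x / Real.log N ^ U ∧
    |(count d a x : ℝ) - S * (x / Real.log N ^ (s + 1))| ≤ ε * (S * (x / Real.log N ^ (s + 1)))

/-- The formula holds for the constants `a`, for all `j ≤ log ^ A N`, for ALL admissible slopes `d i ≤ j`, and for the
primes `q ≤ N / j`. -/
def AllSlopes {s : ℕ} (ε : ℝ) (A U N : ℕ) (a : Fin s → ℕ) : Prop :=
  ∀ (j : ℕ) (d : Fin s → ℕ), (j : ℝ) ≤ Real.log N ^ A → (∀ i, 1 ≤ d i ∧ d i ≤ j) → Admissible d a →
    Formula ε U N (N / j) d a

/-- The frequency `α` is on one of the major arcs `|α - c / q| ≤ log ^ E N / N`, `1 ≤ q ≤ log ^ E N`. -/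
def Major (E N : ℕ) (α : ℝ) : Prop :=
  ∃ q : ℕ, 1 ≤ q ∧ (q : ℝ) ≤ Real.log N ^ E ∧ ∃ c : ℤ, |α - c / q| ≤ Real.log N ^ E / N

/-- `p` is a probability measure on the integers `0, ..., B N`, and its Fourier transform `∑ p v e(v α)` is at most
`1 / log ^ W N` in absolute value at all the real frequencies `α` off the major arcs. -/
structure SmallOff (B E W N : ℕ) (p : ℕ → ℝ) : Prop where
  nonneg : ∀ v ∈ range (B * N + 1), 0 ≤ p v
  sum : ∑ v ∈ range (B * N + 1), p v = 1
  small : ∀ α : ℝ, ¬ Major E N α →
    ‖∑ v ∈ range (B * N + 1), (p v : ℂ) * Complex.exp (2 * Real.pi * Complex.I * ((v * α : ℝ) : ℂ))‖ ≤ 1 / Real.log N ^ W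

/-- The triples `(b, u, i)`, where `b ≤ Q` is a prime, `0 ≤ u < b` and `0 ≤ i < Q`. -/
def triples (Q : ℕ) : Finset (ℕ × ℕ × ℕ) := (range (Q + 1) ×ˢ range Q ×ˢ range Q).filter fun t => t.1.Prime ∧ t.2.1 < t.1

/-- The integer `u ⌊M / b⌋ + i` of the triple `(b, u, i)`: it is near to the rational multiple `(u / b) M` of `M`. -/
def point (M : ℕ) (t : ℕ × ℕ × ℕ) : ℕ := t.2.1 * (M / t.1) + t.2.2

open Classical in
/-- Let `s ≥ 1`, factors `κ i ≥ 1` (`i < s`), `A`, `B ≥ 1`, `U` and `ε > 0` be fixed.

(1) There is a `W` such that for every `E`, for all large `N`, for all integers `0 ≤ c i ≤ B N` and all probability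
measures `p i` on `0, ..., B N` with a Fourier transform of at most `1 / log ^ W N` off the major arcs of exponent `E`:
if `v 1, ..., v s` are independent random integers with the laws `p i`, then with a probability of at least
`1 - 1 / log ^ U N` the constants `a i = c i + κ i * v i` have the following property: for all `j ≤ log ^ A N` and ALL
slopes `1 ≤ d 1, ..., d s ≤ j` for which the system is admissible, the formula of Hardy and Littlewood holds for the
number of the primes `q ≤ N / j` for which all `d i * q + a i` are primes.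

(2) There is a `C` such that for all large `N`, all `Q i` with `log ^ C N ≤ Q i ≤ N`, all `M i` with
`N / B ≤ M i ≤ B N` and all integers `0 ≤ c i ≤ B N` this holds for all the constants `a i = c i + κ i * v i`, where
`v i = u ⌊M i / b⌋ + k` runs through the points with prime denominators `b ≤ Q i` and with `0 ≤ u < b`, `0 ≤ k < Q i`,
with the exception of a proportion of at most `1 / log ^ U N` of the vectors of points. (For `Q i = log ^ C N` there are
at most `log ^ (3 C) N` points.) -/
theorem result (s : ℕ) (hs : 1 ≤ s) (κ : Fin s → ℕ) (hκ : ∀ i, 1 ≤ κ i) (A B U : ℕ) (hB : 1 ≤ B) (ε : ℝ) (hε : 0 < ε) :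
    (∃ W : ℕ, ∀ E : ℕ, ∃ N₀ : ℕ, ∀ N, N₀ ≤ N → ∀ c : Fin s → ℕ, (∀ i, c i ≤ B * N) →
      ∀ p : Fin s → ℕ → ℝ, (∀ i, SmallOff B E W N (p i)) →
        ∑ v ∈ Fintype.piFinset (fun _ : Fin s => range (B * N + 1)),
          (if AllSlopes ε A U N (fun i => c i + κ i * v i) then 0 else ∏ i, p i (v i)) ≤ 1 / Real.log N ^ U) ∧
    (∃ C N₀ : ℕ, ∀ N, N₀ ≤ N → ∀ c : Fin s → ℕ, (∀ i, c i ≤ B * N) →
      ∀ Q M : Fin s → ℕ, (∀ i, Real.log N ^ C ≤ Q i ∧ Q i ≤ N ∧ N ≤ B * M i ∧ M i ≤ B * N) →
        (((Fintype.piFinset fun i => triples (Q i)).filter fun t =>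
          ¬ AllSlopes ε A U N (fun i => c i + κ i * point (M i) (t i))).card : ℝ) ≤
        ((Fintype.piFinset fun i => triples (Q i)).card : ℝ) / Real.log N ^ U) := by
  obtain ⟨V, hV⟩ : ∃ V, V = 2 * (U + 1) + A * (s + 2) + 3 := ⟨_, rfl⟩
  obtain ⟨W, hW⟩ : ∃ W, W = 2 * (V + s + 2) + 3 := ⟨_, rfl⟩
  constructor
  · refine ⟨W, fun E => ?_⟩
    obtain ⟨N1, h1⟩ := Pool.Agent.N699.ST.ws_all s hs (fun _ => Pool.Agent.N699.RP.Lw B E W) κ hκ B U A V hV ε hε
      (fun i => by rw [hW]; exact Pool.Agent.N699.RP.law_one B E (V + s + 2) (κ i) B hB (hκ i))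
    refine ⟨N1, fun N hN c hc p hp => ?_⟩
    have h := h1 N hN (fun _ => range (B * N + 1)) p (fun i => ⟨(hp i).nonneg, (hp i).sum, fun v hv => by
      rw [mem_range] at hv
      omega, (hp i).small⟩) (fun i => (hp i).nonneg) c hc
    refine le_trans (le_of_eq ?_) h
    apply sum_congr rfl
    intro v _
    by_cases hH : AllSlopes ε A U N (fun i => c i + κ i * v i)
    · have hH' : ¬ ¬ Pool.Agent.N699.ST.AllS ε A U N (fun i => c i + κ i * v i) := not_not.2 hH
      rw [if_pos hH, if_neg hH']
    · have hH' : ¬ Pool.Agent.N699.ST.AllS ε A U N (fun i => c i + κ i * v i) := hH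
      rw [if_neg hH, if_pos hH']
  · obtain ⟨N1, h1⟩ := Pool.Agent.N699.ST.ws_all s hs (fun _ => Pool.Agent.N699.RP.Lw (B + 1) (W + 1) W) κ hκ B U A V hV ε hε
      (fun i => by rw [hW]; exact Pool.Agent.N699.RP.law_one (B + 1) (2 * (V + s + 2) + 3 + 1) (V + s + 2) (κ i) B (by omega) (hκ i))
    obtain ⟨N2, h2⟩ := Pool.Agent.N699.RP.prime_law B W hB
    refine ⟨2 * W + 5, N1 + N2 + 3, fun N hN c hc Q M hQM => ?_⟩
    have hN3 : 3 ≤ N := by omega
    have h := h1 N (by omega) (fun i => (Pool.Agent.N699.RP.pts (Q i)).image (Pool.Agent.N699.RP.pt (M i)))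
      (fun i => Pool.Agent.N699.RP.push (Pool.Agent.N699.RP.pts (Q i)) (fun _ => 1 / ((Pool.Agent.N699.RP.pts (Q i)).card : ℝ))
        (Pool.Agent.N699.RP.pt (M i)))
      (fun i => h2 N (by omega) (M i) (hQM i).2.2.1 (hQM i).2.2.2 (Q i) (hQM i).1 (hQM i).2.1)
      (fun i v _ => sum_nonneg fun _ _ => by positivity) c hc
    have e := Pool.Agent.N699.RP.push_tuple (fun i => Pool.Agent.N699.RP.pts (Q i))
        (fun i _ => 1 / ((Pool.Agent.N699.RP.pts (Q i)).card : ℝ)) (fun i => Pool.Agent.N699.RP.pt (M i))
        (fun m => ¬ Pool.Agent.N699.ST.AllS ε A U N (fun i => c i + κ i * m i))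
    have h' : ∑ t ∈ Fintype.piFinset (fun i => triples (Q i)), (if ¬ AllSlopes ε A U N (fun i => c i + κ i * point (M i) (t i)) then
        ∏ i, 1 / ((triples (Q i)).card : ℝ) else 0) ≤ 1 / Real.log N ^ U := by
      refine le_trans (le_of_eq ?_) ((le_of_eq e.symm).trans (le_trans (le_of_eq ?_) h))
      · apply sum_congr rfl
        intro t _
        by_cases hH : AllSlopes ε A U N (fun i => c i + κ i * point (M i) (t i))
        · have hH' : ¬ ¬ Pool.Agent.N699.ST.AllS ε A U N (fun i => c i + κ i * Pool.Agent.N699.RP.pt (M i) (t i)) := not_not.2 hH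
          rw [if_neg (not_not.2 hH), if_neg hH']
        · have hH' : ¬ Pool.Agent.N699.ST.AllS ε A U N (fun i => c i + κ i * Pool.Agent.N699.RP.pt (M i) (t i)) := hH
          rw [if_pos hH, if_pos hH']
          rfl
      · apply sum_congr rfl
        intro m _
        by_cases hH : ¬ Pool.Agent.N699.ST.AllS ε A U N (fun i => c i + κ i * m i)
        · rw [if_pos hH, if_pos hH]
        · rw [if_neg hH, if_neg hH]
    rw [← sum_filter, sum_const, nsmul_eq_mul, prod_div_distrib, prod_const_one, mul_one_div] at h'
    have hcard : ((Fintype.piFinset fun i => triples (Q i)).card : ℝ) = ∏ i, ((triples (Q i)).card : ℝ) := by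
      rw [Fintype.card_piFinset]
      push_cast
      rfl
    rw [← hcard] at h'
    rcases Nat.eq_zero_or_pos (Fintype.piFinset fun i => triples (Q i)).card with h0 | h0
    · have h3 : ((Fintype.piFinset fun i => triples (Q i)).filter fun t =>
          ¬ AllSlopes ε A U N (fun i => c i + κ i * point (M i) (t i))).card = 0 := by
        have := card_filter_le (Fintype.piFinset fun i => triples (Q i)) (fun t =>
          ¬ AllSlopes ε A U N (fun i => c i + κ i * point (M i) (t i)))
        omega
      rw [h3, h0, Nat.cast_zero, zero_div]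
    · have h0r : (0 : ℝ) < ((Fintype.piFinset fun i => triples (Q i)).card : ℝ) := by exact_mod_cast h0
      rw [div_le_iff₀ h0r] at h'
      refine h'.trans (le_of_eq ?_)
      ring

end Pool.Agent.Results.MP_485179_nt.SmallSpectrum
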