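import Mathlib
import Pool.Agent.N740.HK.Un4
import Pool.Agent.N740.HK.Trials
import Pool.Agent.N740.HK.Sch

/-!
# The uniform Hardy–Littlewood asymptotic with the true singular series in random models

The integers are decided one after the other.  An integer with a prime factor `p ≤ z(n)` is never
chosen, and the conditional probability of choosing `n + 1`, given the decisions up to `n`, is
asymptotic to `1 / (log n ∏ (1 - 1/p))`, `p ≤ z(n + 1)`, along the other integers.  Here `z(n)` tends
to infinity slowly, for example like a power of `log n` (Granville's refinement of Cramér's model).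
The asymptotic of the question holds almost surely, uniformly in all sets of `k` shifts, with the
singular series of the question.
-/

set_option autoImplicit false

open MeasureTheory Filter Set ProbabilityTheory
open scoped Topology

namespace Pool.Agent.Results.MP_485179_nt.UniformTrueConstant

variable {Ω : Type}

/-- `n` has no prime factor at most `z` -/
def Sifted (z n : ℕ) : Prop := ∀ p : ℕ, p.Prime → p ≤ z → ¬ p ∣ n

/-- `∏ (1 - 1/p)` over the primes `p ≤ z` -/
noncomputable def mertens (z : ℕ) : ℝ := ∏ p ∈ (Finset.Icc 1 z).filter Nat.Prime, (1 - 1 / (p : ℝ))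

/-- `A n` is the event that `n` is chosen.  The events are adapted to the filtration `ℱ`; an integer
`n` with a prime factor at most `z n` is never chosen; and the conditional probability of `A (n + 1)`
given `ℱ n`, times `log n` and times `∏ (1 - 1/p)`, `p ≤ z (n + 1)`, tends to `1` almost surely when
`n` tends to infinity in such a way that `n + 1` has no prime factor at most `z (n + 1)`. -/
def SievedModel [m : MeasurableSpace Ω] (μ : Measure Ω) (ℱ : Filtration ℕ m) (z : ℕ → ℕ) (A : ℕ → Set Ω) : Prop :=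
  (∀ n, MeasurableSet[ℱ n] (A n)) ∧ (∀ n, ¬ Sifted (z n) n → A n = ∅) ∧
  ∀ᵐ ω ∂μ, Tendsto (fun n : ℕ => (μ[(A (n + 1)).indicator (fun _ => (1 : ℝ)) | ℱ n]) ω * (Real.log n * mertens (z (n + 1))))
    (atTop ⊓ 𝓟 {n : ℕ | Sifted (z (n + 1)) (n + 1)}) (𝓝 1)

/-- The independent models: the integers with a prime factor at most `z n` are not chosen, the other
large integers `n` are chosen independently with probability `1 / (log n ∏ (1 - 1/p))`, `p ≤ z n`.
(Granville: `z n` of the order of `log n`.) -/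
def IndependentModel [MeasurableSpace Ω] (μ : Measure Ω) (z : ℕ → ℕ) (A : ℕ → Set Ω) : Prop :=
  (∀ n, MeasurableSet (A n)) ∧ iIndepSet A μ ∧ (∀ n, ¬ Sifted (z n) n → A n = ∅) ∧
  ∀ᶠ n : ℕ in atTop, Sifted (z n) n → μ (A n) = ENNReal.ofReal (1 / (Real.log n * mertens (z n)))

/-- The sieving limits: `z` is nondecreasing and unbounded, `z n ≤ (log n) ^ κ` and
`z (n ^ 2) ≤ B * z n` for all large `n` with some constants `κ`, `B` (for example
`z n = ⌊(log n) ^ κ⌋`, or `z n = ⌊log log n⌋`). -/
def SlowLimit (z : ℕ → ℕ) : Prop :=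
  Monotone z ∧ Tendsto z atTop atTop ∧ (∃ κ : ℕ, ∀ᶠ n : ℕ in atTop, (z n : ℝ) ≤ Real.log n ^ κ) ∧
    ∃ B : ℕ, ∀ᶠ n : ℕ in atTop, z (n ^ 2) ≤ B * z n

/-- `ν_D(p)`: the number of the residue classes mod `p` which meet `D` -/
def nu (D : Finset ℕ) (p : ℕ) : ℕ := (D.image (fun d => d % p)).card

/-- the partial products `∏ (1 - ν_D(p)/p) (1 - 1/p) ^ (-|D|)`, `p ≤ y`, of the singular series -/
noncomputable def partialSeries (D : Finset ℕ) (y : ℕ) : ℝ :=
  ∏ p ∈ (Finset.Icc 1 y).filter Nat.Prime, (1 - (nu D p : ℝ) / p) / (1 - 1 / (p : ℝ)) ^ D.card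

/-- the singular series, the limit of the partial products -/
noncomputable def series (D : Finset ℕ) : ℝ := limUnder atTop (partialSeries D)

/-- the number of the integers `m ∈ (x, x + H]` for which all `m + d`, `d ∈ D`, are in `S` -/
noncomputable def tuples (S : Set ℕ) (D : Finset ℕ) (x H : ℕ) : ℕ :=
  {m : ℕ | x < m ∧ m ≤ x + H ∧ ∀ d ∈ D, m + d ∈ S}.ncard

open Pool.Agent.N740.HK Pool.Agent.R528.RM

lemma log_ratio : Tendsto (fun n : ℕ => (Real.log ((n + 1 : ℕ) : ℝ))⁻¹ * Real.log n) atTop (𝓝 1) := by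
  have h1 : Tendsto (fun n : ℕ => Real.log ((n : ℝ) + 1) - Real.log n) atTop (𝓝 0) := by
    have h1 : Tendsto (fun n : ℕ => 1 + (1 : ℝ) / n) atTop (𝓝 (1 + 0)) :=
      tendsto_const_nhds.add tendsto_one_div_atTop_nhds_zero_nat
    rw [add_zero] at h1
    have h2 := (Real.continuousAt_log (one_ne_zero)).tendsto.comp h1
    rw [Real.log_one] at h2
    refine h2.congr' ?_
    filter_upwards [eventually_gt_atTop 0] with n hn
    have hn' : (0 : ℝ) < n := by exact_mod_cast hn
    show Real.log (1 + 1 / (n : ℝ)) = _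
    rw [← Real.log_div (by positivity) hn'.ne']
    congr 1
    field_simp
  have h2 : Tendsto (fun n : ℕ => Real.log ((n : ℝ) + 1)) atTop atTop :=
    Real.tendsto_log_atTop.comp (tendsto_atTop_add_const_right _ _ tendsto_natCast_atTop_atTop)
  have h3 := h1.div_atTop h2
  have h4 : Tendsto (fun n : ℕ => 1 - (Real.log ((n : ℝ) + 1) - Real.log n) / Real.log ((n : ℝ) + 1)) atTop (𝓝 (1 - 0)) :=
    tendsto_const_nhds.sub h3
  rw [sub_zero] at h4
  refine h4.congr' ?_
  filter_upwards [h2.eventually_gt_atTop 0] with n hn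
  push_cast
  field_simp
  ring

lemma ps_eq (D : Finset ℕ) (y : ℕ) : partialSeries D y = cs D y := by
  unfold partialSeries cs lf nu
  refine Finset.prod_congr rfl fun p hp => ?_
  rw [om_image D (Finset.mem_filter.1 hp).2.pos]

lemma series_lim (D : Finset ℕ) : Tendsto (partialSeries D) atTop (𝓝 (series D)) := by
  obtain ⟨S, hS⟩ := cs_lim D
  have h1 : Tendsto (partialSeries D) atTop (𝓝 S) := hS.congr fun y => (ps_eq D y).symm
  have h2 : series D = S := h1.limUnder_eq
  rw [h2]
  exact h1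

lemma tuples_eq {A : ℕ → Set Ω} (ω : Ω) (D : Finset ℕ) (x H : ℕ) :
    (tuples {k | ω ∈ A k} D x H : ℝ) = ∑ n ∈ Finset.Ioc x (x + H), ∏ d ∈ D, J1 A (n + d) ω := by
  classical
  have e : {m : ℕ | x < m ∧ m ≤ x + H ∧ ∀ d ∈ D, m + d ∈ ({k | ω ∈ A k} : Set ℕ)} =
      ((Finset.Ioc x (x + H)).filter (fun m => ∀ d ∈ D, m + d ∈ ({k | ω ∈ A k} : Set ℕ)) : Finset ℕ) := by
    ext n
    simp only [Set.mem_ofPred_eq, Finset.coe_filter, Finset.mem_Ioc]
    tauto
  unfold tuples
  rw [e, Set.ncard_coe_finset, Finset.card_filter]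
  push_cast
  refine Finset.sum_congr rfl fun n _ => ?_
  by_cases h : ∀ d ∈ D, n + d ∈ ({k | ω ∈ A k} : Set ℕ)
  · rw [if_pos h]
    refine (Finset.prod_eq_one fun d hd => ?_).symm
    unfold J1
    have hm : ω ∈ A (n + d) := h d hd
    exact Set.indicator_of_mem hm _
  · rw [if_neg h]
    push Not at h
    obtain ⟨d, hd, h2⟩ := h
    refine (Finset.prod_eq_zero hd ?_).symm
    unfold J1
    have hm : ω ∉ A (n + d) := h2
    exact Set.indicator_of_notMem hm _

end Pool.Agent.Results.MP_485179_nt.UniformTrueConstant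

open Pool.Agent.Results.MP_485179_nt.UniformTrueConstant Pool.Agent.N740.HK Pool.Agent.R528.RM

/-- The independent models are sieved models for some filtration, and the products defining the
singular series converge.  In every sieved model with a slow sieving limit `z`, almost surely, for
all `k`, `K` and `ε > 0`:
(1) there are `a` and `δ > 0` such that for all large `x`, all `(log x) ^ a ≤ H ≤ x ^ (1 + δ)` and
ALL `k`-element sets `D` of integers `d ≤ x ^ (1 + δ)`, `log d ≤ K z(x)`, the number of the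
`m ∈ (x, x + H]` with all `m + d` chosen is `𝔖(D) H / (log x) ^ k` up to `ε` times this;
(2) for all large `x` and ALL `k`-element sets `D` of integers `d ≤ x`, `log d ≤ K z(x)` with
`𝔖(D) ≠ 0`, the number of the `m ≤ x` with all `m + d` chosen is `𝔖(D) x / (log x) ^ k` up to `ε`
times this;
(3) if `log log n ≤ K z(n)` for all large `n` with some `K`, then the statement of the question holds
for the chosen integers. -/
theorem Pool.Agent.Results.MP_485179_nt.UniformTrueConstant.result :
    (∀ {Ω : Type} [m : MeasurableSpace Ω] (μ : Measure Ω) [IsProbabilityMeasure μ] (A : ℕ → Set Ω) (z : ℕ → ℕ),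
      IndependentModel μ z A → ∃ ℱ : Filtration ℕ m, SievedModel μ ℱ z A) ∧
    (∀ D : Finset ℕ, Tendsto (partialSeries D) atTop (𝓝 (series D))) ∧
    ∀ {Ω : Type} [m : MeasurableSpace Ω] (μ : Measure Ω) [IsProbabilityMeasure μ] (A : ℕ → Set Ω)
      (ℱ : Filtration ℕ m) (z : ℕ → ℕ), SlowLimit z → SievedModel μ ℱ z A →
      ∀ᵐ ω ∂μ,
        (∀ k K : ℕ, ∀ ε : ℝ, 0 < ε → ∃ a : ℕ, ∃ δ : ℝ, 0 < δ ∧ ∀ᶠ x : ℕ in atTop, ∀ H : ℕ,
          Real.log x ^ a ≤ H → (H : ℝ) ≤ (x : ℝ) ^ (1 + δ) →
          ∀ D : Finset ℕ, D.card = k → (∀ d ∈ D, (d : ℝ) ≤ (x : ℝ) ^ (1 + δ) ∧ Real.log d ≤ K * z x) →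
          |(tuples {k | ω ∈ A k} D x H : ℝ) - series D * H / Real.log x ^ k| ≤ ε * (series D * H / Real.log x ^ k)) ∧
        (∀ k K : ℕ, ∀ ε : ℝ, 0 < ε → ∀ᶠ x : ℕ in atTop,
          ∀ D : Finset ℕ, D.card = k → (∀ d ∈ D, d ≤ x ∧ Real.log d ≤ K * z x) → series D ≠ 0 →
          |(tuples {k | ω ∈ A k} D 0 x : ℝ) - series D * x / Real.log x ^ k| ≤ ε * (series D * x / Real.log x ^ k)) ∧
        ((∃ K : ℕ, ∀ᶠ n : ℕ in atTop, Real.log (Real.log n) ≤ K * z n) → ∀ k : ℕ, ∀ ε : ℝ, 0 < ε → ∀ᶠ x : ℕ in atTop,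
          ∀ D : Finset ℕ, D.card = k → (∀ d ∈ D, 2 ≤ d ∧ (d : ℝ) ≤ Real.log x ^ (k + 1)) → series (insert 0 D) ≠ 0 →
          |(tuples {k | ω ∈ A k} (insert 0 D) 0 x : ℝ) / (series (insert 0 D) * x / Real.log x ^ (k + 1)) - 1| ≤ ε) := by
  classical
  refine ⟨fun {Ω} m μ _ A z => ?_, series_lim, fun {Ω} m μ _ A ℱ z hz hM => ?_⟩
  · rintro ⟨hA, hi, he, hp⟩
    refine ⟨gen hA, gen_meas hA, he, ?_⟩
    have h1 : ∀ᵐ ω ∂μ, ∀ n, (μ[(A (n + 1)).indicator (fun _ => (1 : ℝ)) | gen hA n]) ω =
        (μ (A (n + 1))).toReal := ae_all_iff.2 fun n => dens_gen hA hi n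
    filter_upwards [h1] with ω hω
    refine (log_ratio.mono_left inf_le_left).congr' ?_
    rw [EventuallyEq, eventually_inf_principal]
    filter_upwards [eventually_ge_atTop 2, (tendsto_add_atTop_nat 1).eventually hp] with n hn hpn hf
    have hG : 0 < mertens (z (n + 1)) := GG_pos _
    have hn' : (2 : ℝ) ≤ n := by exact_mod_cast hn
    have hL : 0 < Real.log ((n + 1 : ℕ) : ℝ) := Real.log_pos (by push_cast; linarith)
    rw [hω, hpn hf, ENNReal.toReal_ofReal (by positivity)]
    field_simp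
  · obtain ⟨hzm, hzt, ⟨κ, hzκ⟩, hzr⟩ := hz
    have hreg := reg_pow hzm hzr
    have hcs : ∀ D, Tendsto (cs D) atTop (𝓝 (series D)) := fun D => (series_lim D).congr fun y => ps_eq D y
    filter_upwards [un_all (μ := μ) (ℱ := ℱ) (A := A) hM.1 hzm hzt hzκ hreg hM.2.1 hM.2.2] with ω hω
    have hfull : ∀ k K : ℕ, ∀ ε : ℝ, 0 < ε → ∀ᶠ x : ℕ in atTop,
          ∀ D : Finset ℕ, D.card = k → (∀ d ∈ D, d ≤ x ∧ Real.log d ≤ K * z x) → series D ≠ 0 →
          |(tuples {k | ω ∈ A k} D 0 x : ℝ) - series D * x / Real.log x ^ k| ≤ ε * (series D * x / Real.log x ^ k) := by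
      intro k K ε hε
      have h1 := un_full (J := fun n => J1 A n ω) (fun n => J1_01 n ω) hzm hreg k (fun K θ hθ => hω k K θ hθ) K ε hε
      filter_upwards [h1, eventually_ge_atTop 3] with x h2 h3 D hD hDx hS
      have h3' : (3 : ℝ) ≤ x := by exact_mod_cast h3
      have hL : 0 < Real.log x := Real.log_pos (by linarith)
      have h4 := h2 D hD (fun d hd => (hDx d hd).1) (fun d hd => (hDx d hd).2) (series D) (hcs D) hS
      have e1 := tuples_eq (A := A) ω D 0 x
      rw [zero_add] at e1
      rw [e1]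
      set T := ∑ n ∈ Finset.Ioc 0 x, ∏ d ∈ D, J1 A (n + d) ω with hT
      have hP : (0 : ℝ) < x / Real.log x ^ k := by positivity
      have e2 : T - series D * x / Real.log x ^ k = (T * Real.log x ^ k / x - series D) * (x / Real.log x ^ k) := by
        field_simp
      have e3 : ε * (series D * x / Real.log x ^ k) = (ε * series D) * (x / Real.log x ^ k) := by ring
      rw [e2, abs_mul, abs_of_pos hP, e3]
      exact mul_le_mul_of_nonneg_right h4 hP.le
    refine ⟨fun k K ε hε => ?_, hfull, fun hK k ε hε => ?_⟩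
    · obtain ⟨a, δ, hδ, _, h1⟩ := hω k K ε hε
      refine ⟨a, δ, hδ, ?_⟩
      filter_upwards [h1, eventually_ge_atTop 3] with x h2 h3 H hH1 hH2 D hD hDx
      have h3' : (3 : ℝ) ≤ x := by exact_mod_cast h3
      have hL : 0 < Real.log x := Real.log_pos (by linarith)
      have hHpos : (0 : ℝ) < H := lt_of_lt_of_le (by positivity) hH1
      have h4 := h2 H hH1 hH2 D hD (fun d hd => (hDx d hd).1) (fun d hd => (hDx d hd).2) (series D) (hcs D)
      rw [tuples_eq ω D x H]
      set T := ∑ n ∈ Finset.Ioc x (x + H), ∏ d ∈ D, J1 A (n + d) ω with hT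
      have hP : (0 : ℝ) < H / Real.log x ^ k := by positivity
      have e2 : T - series D * H / Real.log x ^ k = (T * Real.log x ^ k / H - series D) * (H / Real.log x ^ k) := by
        field_simp
      have e3 : ε * (series D * H / Real.log x ^ k) = (ε * series D) * (H / Real.log x ^ k) := by ring
      rw [e2, abs_mul, abs_of_pos hP, e3]
      exact mul_le_mul_of_nonneg_right h4 hP.le
    · obtain ⟨K, hK⟩ := hK
      filter_upwards [hfull (k + 1) ((k + 1) * K) ε hε, hK, log_pow_div (k + 1) 1 one_pos,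
        tendsto_logN.eventually_ge_atTop 3, eventually_ge_atTop 3] with x h1 h2 h3 h4 h5 D hD hDx hS
      have h5' : (3 : ℝ) ≤ x := by exact_mod_cast h5
      have hL : 0 < Real.log x := by linarith
      have hLL : 0 ≤ Real.log (Real.log x) := Real.log_nonneg (by linarith)
      have h0D : (0 : ℕ) ∉ D := fun h => by
        have := (hDx 0 h).1
        omega
      have hcard : (insert 0 D).card = k + 1 := by rw [Finset.card_insert_of_notMem h0D, hD]
      have hcond : ∀ d ∈ insert 0 D, d ≤ x ∧ Real.log d ≤ (((k + 1) * K : ℕ) : ℝ) * z x := by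
        intro d hd
        rcases Finset.mem_insert.1 hd with rfl | hd
        · refine ⟨Nat.zero_le _, ?_⟩
          rw [Nat.cast_zero, Real.log_zero]
          positivity
        · obtain ⟨g1, g2⟩ := hDx d hd
          have g3 : (d : ℝ) ≤ x := by linarith
          refine ⟨by exact_mod_cast g3, ?_⟩
          have g4 : (0 : ℝ) < d := by exact_mod_cast (by omega : 0 < d)
          have g5 := Real.log_le_log g4 g2
          rw [Real.log_pow] at g5
          refine g5.trans ?_
          push_cast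
          have g6 := mul_le_mul_of_nonneg_left h2 (show (0 : ℝ) ≤ (k : ℝ) + 1 by positivity)
          linarith
      have h6 := h1 (insert 0 D) hcard hcond hS
      have hSpos : 0 < series (insert 0 D) := by
        refine lt_of_le_of_ne (ge_of_tendsto' (hcs (insert 0 D)) fun y => cs_nonneg _ y) (Ne.symm hS)
      have hP : 0 < series (insert 0 D) * x / Real.log x ^ (k + 1) := by positivity
      set P := series (insert 0 D) * x / Real.log x ^ (k + 1) with hPd
      set T := (tuples {k | ω ∈ A k} (insert 0 D) 0 x : ℝ) with hT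
      have e1 : T / P - 1 = (T - P) / P := by field_simp
      rw [e1, abs_div, abs_of_pos hP, div_le_iff₀ hP]
      exact h6
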